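import Mathlib
import Pool.Agent.Helper50.PR.Defs

/-!
# PR-3: facts about the polynomials `chi`
-/

open Finset

namespace Pool.Agent.Helper50.PR

theorem chi_zero' : chi 0 = 2 := by rw [chi]

theorem chi_one' : chi 1 = Polynomial.X := by rw [chi]

theorem chi_add_two (n : ℕ) : chi (n + 2) = Polynomial.X * chi (n + 1) - chi n := by rw [chi]

theorem chi_eval_add_two (n : ℕ) (z : ℤ) :
    (chi (n + 2)).eval z = z * (chi (n + 1)).eval z - (chi n).eval z := by
  rw [chi_add_two, Polynomial.eval_sub, Polynomial.eval_mul, Polynomial.eval_X]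

theorem chi_eval_zero (z : ℤ) : (chi 0).eval z = 2 := by
  rw [chi_zero']
  exact Polynomial.eval_ofNat 2 z

theorem chi_eval_one (z : ℤ) : (chi 1).eval z = z := by
  rw [chi_one', Polynomial.eval_X]

theorem chi_natDegree_le (n : ℕ) : (chi n).natDegree ≤ n := by
  induction n using Nat.twoStepInduction with
  | zero => rw [chi_zero']; exact (Polynomial.natDegree_ofNat 2).le
  | one => rw [chi_one']; exact Polynomial.natDegree_X_le
  | more n ih0 ih1 =>
    rw [chi_add_two]
    refine (Polynomial.natDegree_sub_le _ _).trans (max_le ?_ (by omega))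
    refine (Polynomial.natDegree_mul_le).trans ?_
    have := Polynomial.natDegree_X_le (R := ℤ)
    omega

theorem chi_coeff_self (n : ℕ) (hn : 1 ≤ n) : (chi n).coeff n = 1 := by
  induction n using Nat.twoStepInduction with
  | zero => omega
  | one => rw [chi_one']; exact Polynomial.coeff_X_one
  | more n ih0 ih1 =>
    rw [chi_add_two, Polynomial.coeff_sub, Polynomial.coeff_X_mul, ih1 (by omega),
      Polynomial.coeff_eq_zero_of_natDegree_lt (lt_of_le_of_lt (chi_natDegree_le n) (by omega)),
      sub_zero]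

theorem chi_l1 (n : ℕ) : ∑ l ∈ range (n + 1), |(chi n).coeff l| ≤ 2 ^ (n + 1) := by
  induction n using Nat.twoStepInduction with
  | zero =>
    rw [chi_zero']
    simp
  | one =>
    rw [chi_one']
    simp [Finset.sum_range_succ]
  | more n ih0 ih1 =>
    have e1 : ∑ l ∈ range (n + 2 + 1), |(chi (n + 2)).coeff l| ≤
        ∑ l ∈ range (n + 2 + 1), (|(Polynomial.X * chi (n + 1)).coeff l| + |(chi n).coeff l|) := by
      refine Finset.sum_le_sum fun l _ => ?_
      rw [chi_add_two, Polynomial.coeff_sub]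
      exact abs_sub _ _
    rw [Finset.sum_add_distrib] at e1
    have e2 : ∑ l ∈ range (n + 2 + 1), |(Polynomial.X * chi (n + 1)).coeff l| =
        ∑ l ∈ range (n + 1 + 1), |(chi (n + 1)).coeff l| := by
      rw [Finset.sum_range_succ']
      simp only [Polynomial.coeff_X_mul, Polynomial.coeff_X_mul_zero, abs_zero, add_zero]
    have e3 : ∑ l ∈ range (n + 2 + 1), |(chi n).coeff l| = ∑ l ∈ range (n + 1), |(chi n).coeff l| := by
      have hd := chi_natDegree_le n
      rw [Finset.sum_range_succ, Finset.sum_range_succ,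
        Polynomial.coeff_eq_zero_of_natDegree_lt (show (chi n).natDegree < n + 2 by omega),
        Polynomial.coeff_eq_zero_of_natDegree_lt (show (chi n).natDegree < n + 1 by omega)]
      simp
    rw [e2, e3] at e1
    have : (2 : ℤ) ^ (n + 2 + 1) = 2 ^ (n + 1 + 1) + 2 ^ (n + 1) + 2 ^ (n + 1) := by ring
    have h0 : (0 : ℤ) < 2 ^ (n + 1) := by positivity
    linarith

theorem chi_eval_xn {a : ℕ} (a1 : 1 < a) (n : ℕ) :
    (chi n).eval (2 * (a : ℤ)) = 2 * (Pell.xn a1 n : ℤ) := by
  induction n using Nat.twoStepInduction with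
  | zero => rw [chi_eval_zero]; simp
  | one => rw [chi_eval_one]; simp
  | more n ih0 ih1 =>
    rw [chi_eval_add_two, ih0, ih1]
    have h := Pell.xn_succ_succ a1 n
    have h' : (Pell.xn a1 (n + 2) : ℤ) + (Pell.xn a1 n : ℤ) = 2 * a * (Pell.xn a1 (n + 1) : ℤ) := by
      exact_mod_cast h
    linear_combination (-2) * h'

/-- Product formula. -/
theorem chi_mul (A : ℤ) (n m : ℕ) :
    (chi n).eval A * (chi (m + n)).eval A = (chi (m + 2 * n)).eval A + (chi m).eval A := by
  induction n using Nat.twoStepInduction generalizing m with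
  | zero => rw [chi_eval_zero]; simp; ring
  | one =>
    rw [chi_eval_one]
    have := chi_eval_add_two m A
    rw [show m + 2 * 1 = m + 2 by ring]
    linear_combination (-1) * this
  | more n ih0 ih1 =>
    have h1 := ih1 (m + 1)
    have h0 := ih0 (m + 2)
    have r1 := chi_eval_add_two n A
    have r2 := chi_eval_add_two (m + 2 * n + 2) A
    have r3 := chi_eval_add_two m A
    rw [show m + 1 + (n + 1) = m + n + 2 by ring, show m + 1 + 2 * (n + 1) = m + 2 * n + 3 by ring] at h1
    rw [show m + 2 + n = m + n + 2 by ring, show m + 2 + 2 * n = m + 2 * n + 2 by ring] at h0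
    rw [show m + 2 * n + 2 + 2 = m + 2 * n + 4 by ring, show m + 2 * n + 2 + 1 = m + 2 * n + 3 by ring] at r2
    rw [show m + (n + 2) = m + n + 2 by ring, show m + 2 * (n + 2) = m + 2 * n + 4 by ring]
    linear_combination (chi (m + n + 2)).eval A * r1 + A * h1 - h0 - r2 - r3

theorem chi_comp (n m : ℕ) (A : ℤ) :
    (chi m).eval ((chi n).eval A) = (chi (n * m)).eval A := by
  induction m using Nat.twoStepInduction with
  | zero => rw [chi_eval_zero, mul_zero, chi_eval_zero]
  | one => rw [chi_eval_one, mul_one]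
  | more m ih0 ih1 =>
    rw [chi_eval_add_two, ih0, ih1]
    have h := chi_mul A n (n * m)
    rw [show n * m + n = n * (m + 1) by ring, show n * m + 2 * n = n * (m + 2) by ring] at h
    linear_combination h

theorem chi_mono_aux (z : ℤ) (hz : 2 ≤ z) (m : ℕ) :
    2 ≤ (chi m).eval z ∧ (chi m).eval z ≤ (chi (m + 1)).eval z := by
  induction m with
  | zero => rw [zero_add, chi_eval_zero, chi_eval_one]; exact ⟨le_refl _, hz⟩
  | succ m ih =>
    obtain ⟨h1, h2⟩ := ih
    have h3 := chi_eval_add_two m z
    refine ⟨h1.trans h2, ?_⟩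
    rw [h3]
    nlinarith [mul_nonneg (sub_nonneg.2 hz) (show (0 : ℤ) ≤ (chi (m + 1)).eval z by linarith)]

theorem chi_bounds (m : ℕ) (hm : 1 ≤ m) (z : ℤ) (hz : 2 ≤ z) :
    z ^ m - m * z ^ (m - 2) ≤ (chi m).eval z ∧ (chi m).eval z ≤ z ^ m := by
  induction m using Nat.twoStepInduction with
  | zero => omega
  | one => rw [chi_eval_one]; simp
  | more m ih0 ih1 =>
    have hz0 : (0 : ℤ) ≤ z := by linarith
    have hm0 := (chi_mono_aux z hz m).1
    rcases Nat.eq_zero_or_pos m with rfl | hpos
    · have e := chi_eval_add_two 0 z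
      simp only [zero_add, chi_eval_zero, chi_eval_one] at e ⊢
      rw [e]
      constructor
      · simp
        nlinarith
      · nlinarith
    · obtain ⟨l1, u1⟩ := ih1 (by omega)
      obtain ⟨l0, u0⟩ := ih0 (by omega)
      rw [chi_eval_add_two]
      obtain ⟨k, rfl⟩ : ∃ k, m = k + 1 := ⟨m - 1, by omega⟩
      rw [show k + 1 + 1 - 2 = k by omega] at l1
      rw [show k + 1 + 2 - 2 = k + 1 by omega]
      constructor
      · have h1 := mul_le_mul_of_nonneg_left l1 hz0
        have e1 : z * (z ^ (k + 1 + 1) - ((k + 1 + 1 : ℕ) : ℤ) * z ^ k) =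
            z ^ (k + 1 + 2) - ((k + 1 + 1 : ℕ) : ℤ) * z ^ (k + 1) := by ring
        rw [e1] at h1
        push_cast at h1 ⊢
        linarith
      · have h1 := mul_le_mul_of_nonneg_left u1 hz0
        have e1 : z * z ^ (k + 1 + 1) = z ^ (k + 1 + 2) := by ring
        rw [e1] at h1
        linarith

end Pool.Agent.Helper50.PR
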