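import Mathlib
import Pool.Agent.Helper50.PR.Defs

/-!
# PR-2: elementary congruences for the products `N n i`
-/

open Finset

namespace Pool.Agent.Helper50.PR

theorem N_modEq_one (n i : ℕ) : N n i ≡ 1 [ZMOD n] := by
  unfold N
  induction i with
  | zero => simp
  | succ k ih =>
    rw [Finset.prod_range_succ]
    have h1 : (1 - (k : ℤ) * n) ≡ 1 [ZMOD n] := by
      rw [Int.modEq_iff_dvd]
      exact ⟨k, by ring⟩
    simpa using ih.mul h1

theorem factorial_dvd_N (n i : ℕ) (h : Nat.Coprime n i.factorial) :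
    (i.factorial : ℤ) ∣ N n i := by
  -- inverse of `n` modulo `i!`
  obtain ⟨a, b, hab⟩ := Nat.isCoprime_iff_coprime.2 h
  -- a natural number `m` with `m * n ≡ 1`
  have hpos : (0 : ℤ) < (i.factorial : ℤ) := by exact_mod_cast Nat.factorial_pos i
  obtain ⟨m, hm⟩ : ∃ m : ℕ, (m : ℤ) = a % (i.factorial : ℤ) :=
    ⟨(a % (i.factorial : ℤ)).toNat, Int.toNat_of_nonneg (Int.emod_nonneg _ hpos.ne')⟩
  have hmn : (m : ℤ) * n ≡ 1 [ZMOD (i.factorial : ℤ)] := by
    rw [hm]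
    have h1 : a % (i.factorial : ℤ) ≡ a [ZMOD (i.factorial : ℤ)] := Int.mod_modEq _ _
    refine (h1.mul_right _).trans ?_
    rw [Int.modEq_iff_dvd]
    exact ⟨b, by linarith⟩
  have key : (m : ℤ) ^ i * N n i ≡ ∏ j ∈ range i, ((m : ℤ) - j) [ZMOD (i.factorial : ℤ)] := by
    have e : (m : ℤ) ^ i * N n i = ∏ j ∈ range i, ((m : ℤ) - (m : ℤ) * n * j) := by
      unfold N
      rw [← Finset.card_range i, ← Finset.prod_const, Finset.card_range, ← Finset.prod_mul_distrib]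
      exact Finset.prod_congr rfl fun j _ => by ring
    rw [e]
    refine Int.ModEq.prod fun j _ => ?_
    refine Int.ModEq.sub rfl ?_
    simpa using hmn.mul_right (j : ℤ)
  have hd : (i.factorial : ℤ) ∣ ∏ j ∈ range i, ((m : ℤ) - j) := by
    rw [Finset.prod_range_natCast_sub, ← Nat.descFactorial_eq_prod_range]
    exact_mod_cast Nat.factorial_dvd_descFactorial m i
  have h2 : (i.factorial : ℤ) ∣ (m : ℤ) ^ i * N n i := (Int.ModEq.dvd_iff key).2 hd
  have hc : IsCoprime (i.factorial : ℤ) ((m : ℤ) ^ i) := by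
    apply IsCoprime.pow_right
    rw [Int.modEq_iff_dvd] at hmn
    obtain ⟨c, hc⟩ := hmn
    exact ⟨c, n, by linarith⟩
  exact hc.dvd_of_dvd_mul_left h2

theorem factorial_dvd_N_prime (p : ℕ) (hp : p.Prime) :
    (p.factorial : ℤ) ∣ N p p + ((p - 1).factorial : ℤ) := by
  obtain ⟨q, rfl⟩ : ∃ q, p = q + 1 := ⟨p - 1, by have := hp.one_lt; omega⟩
  have : Fact (q + 1).Prime := ⟨hp⟩
  rw [Nat.add_sub_cancel]
  have hcop : Nat.Coprime (q + 1) q.factorial :=
    (Nat.Prime.coprime_iff_not_dvd hp).2 (by rw [hp.dvd_factorial]; omega)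
  have h1 : (q.factorial : ℤ) ∣ N (q + 1) (q + 1) + (q.factorial : ℤ) := by
    refine dvd_add ?_ (dvd_refl _)
    have : N (q + 1) (q + 1) = N (q + 1) q * (1 - (q : ℤ) * ((q + 1 : ℕ) : ℤ)) := by
      unfold N
      rw [Finset.prod_range_succ]
    rw [this]
    exact Dvd.dvd.mul_right (factorial_dvd_N _ _ hcop) _
  have h2 : ((q + 1 : ℕ) : ℤ) ∣ N (q + 1) (q + 1) + (q.factorial : ℤ) := by
    have e1 := N_modEq_one (q + 1) (q + 1)
    have e2 : (q.factorial : ℤ) ≡ -1 [ZMOD ((q + 1 : ℕ) : ℤ)] := by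
      have hw := ZMod.wilsons_lemma (q + 1)
      rw [Nat.add_sub_cancel] at hw
      rw [← ZMod.intCast_eq_intCast_iff]
      push_cast
      exact hw
    have e3 := e1.add e2
    have e4 : N (q + 1) (q + 1) + (q.factorial : ℤ) ≡ 0 [ZMOD ((q + 1 : ℕ) : ℤ)] := by
      simpa using e3
    exact (Int.modEq_zero_iff_dvd).1 e4
  have hc : IsCoprime ((q + 1 : ℕ) : ℤ) (q.factorial : ℤ) := Nat.isCoprime_iff_coprime.2 hcop
  rw [Nat.factorial_succ]
  push_cast at h2 hc ⊢
  exact hc.mul_dvd h2 h1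

end Pool.Agent.Helper50.PR
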